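import Pool.Agent.EGF.StmtsR

/-! EGF block R, row PDD (helper40): the density of the good pairs. -/

set_option autoImplicit false

open Finset

namespace Pool.Agent.EGF.H40

theorem pdd (hSh : ShaStmt) : PddStmt := by
  classical
  intro V _ k c U A Z0 e y b m θ κ q hR h0 hκ hκ8 h12 hq hAU hb hinj hZ hexp hg
  set L1 := (range m).filter fun l => b l ∉ Z0 with hL1
  have hL1m : ∀ l ∈ L1, l < m := by
    intro l hl
    rw [hL1, mem_filter, mem_range] at hl
    exact hl.1
  have hbinj : Set.InjOn b L1 := by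
    intro l hl i hi h
    exact hinj l (hL1m l hl) i (hL1m i hi) h
  set Q := L1.image b with hQ
  have hQc : Q.card = L1.card := card_image_of_injOn hbinj
  have hQp : Q ⊆ pal c U := by
    intro i hi
    rw [hQ, mem_image] at hi
    obtain ⟨l, hl, rfl⟩ := hi
    exact hb l (hL1m l hl)
  -- the size of `Q`
  have hQm : (m : ℝ) / 2 ≤ Q.card := by
    have h1 : ((range m).filter fun l => b l ∈ Z0).card ≤ Z0.card := by
      rw [← card_image_of_injOn (f := b) (s := (range m).filter fun l => b l ∈ Z0)]
      · apply card_le_card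
        intro i hi
        rw [mem_image] at hi
        obtain ⟨l, hl, rfl⟩ := hi
        rw [mem_filter] at hl
        exact hl.2
      · intro l hl i hi h
        rw [mem_coe, mem_filter, mem_range] at hl hi
        exact hinj l hl.1 i hi.1 h
    have h2 := card_filter_add_card_filter_not (s := range m) (fun l => b l ∈ Z0)
    rw [card_range] at h2
    have h3 : m ≤ 2 * Q.card := by
      rw [hQc, hL1]
      omega
    have h4 : (m : ℝ) ≤ 2 * Q.card := by exact_mod_cast h3
    linarith
  have hsha := hSh V k c U θ κ Q hR h0 hκ hκ8 h12 hQp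
  have hUpos : (0 : ℝ) < U.card := by exact_mod_cast hR.1.card_pos
  have hApos : (0 : ℝ) < A.card :=
    lt_of_lt_of_le (mul_pos (mul_pos two_pos hUpos) (Real.exp_pos _)) hexp
  -- bad vertices
  set bad := U.filter fun y => ((Q ∩ star c U y).card : ℝ) ≤ 2 * κ * Q.card with hbad
  have hbad2 : 2 * (bad.card : ℝ) ≤ A.card := by
    have h1 : Real.exp (-(θ * Q.card / 2)) ≤ Real.exp (-(θ * m / 4)) := by
      apply Real.exp_le_exp.2
      have : θ * ((m : ℝ) / 2) ≤ θ * Q.card := mul_le_mul_of_nonneg_left hQm h0.le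
      linarith
    have h2 : (bad.card : ℝ) ≤ U.card * Real.exp (-(θ * m / 4)) :=
      hsha.trans (mul_le_mul_of_nonneg_left h1 hUpos.le)
    linarith
  set Bi : ℕ → Finset V := fun l => A.filter fun x => b l ∈ star c U x with hBi
  have hdc : ∑ l ∈ L1, (Bi l).card = ∑ x ∈ A, (Q ∩ star c U x).card := by
    have h1 : ∀ l ∈ L1, (Bi l).card = ∑ x ∈ A, if b l ∈ star c U x then 1 else 0 := by
      intro l _
      rw [hBi, card_filter]
    have h2 : ∀ x ∈ A, (Q ∩ star c U x).card = ∑ l ∈ L1, if b l ∈ star c U x then 1 else 0 := by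
      intro x _
      rw [← card_filter, ← filter_mem_eq_inter, hQ, filter_image]
      exact card_image_of_injOn (hbinj.mono (by
        intro l hl
        rw [mem_coe, mem_filter] at hl
        exact hl.1))
    rw [sum_congr rfl h1, sum_congr rfl h2, sum_comm]
  have hlow : κ * Q.card * A.card ≤ ∑ l ∈ L1, ((Bi l).card : ℝ) := by
    have h1 : (∑ l ∈ L1, ((Bi l).card : ℝ)) = ∑ x ∈ A, ((Q ∩ star c U x).card : ℝ) := by
      exact_mod_cast hdc
    rw [h1]
    have h2 : ∑ x ∈ A \ bad, (2 * κ * (Q.card : ℝ)) ≤ ∑ x ∈ A, ((Q ∩ star c U x).card : ℝ) := by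
      calc ∑ x ∈ A \ bad, (2 * κ * (Q.card : ℝ))
          ≤ ∑ x ∈ A \ bad, ((Q ∩ star c U x).card : ℝ) := by
            apply sum_le_sum
            intro x hx
            rw [mem_sdiff] at hx
            by_contra hcon
            push Not at hcon
            apply hx.2
            rw [hbad, mem_filter]
            exact ⟨hAU hx.1, hcon.le⟩
        _ ≤ ∑ x ∈ A, ((Q ∩ star c U x).card : ℝ) :=
            sum_le_sum_of_subset_of_nonneg sdiff_subset (fun _ _ _ => Nat.cast_nonneg _)
    rw [sum_const, nsmul_eq_mul] at h2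
    have h3 : (A.card : ℝ) / 2 ≤ ((A \ bad).card : ℝ) := by
      have h4 : A.card ≤ (A \ bad).card + bad.card := by
        have := card_le_card_sdiff_add_card (s := A) (t := bad)
        omega
      have h5 : (A.card : ℝ) ≤ (A \ bad).card + bad.card := by exact_mod_cast h4
      linarith
    have h6 : (0 : ℝ) ≤ 2 * κ * Q.card := by positivity
    have h7 := mul_le_mul_of_nonneg_right h3 h6
    linarith
  -- good indices
  set G := L1.filter fun l => κ / 2 * (A.card : ℝ) ≤ ((Bi l).card : ℝ) with hG
  have hBile : ∀ l, ((Bi l).card : ℝ) ≤ A.card := by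
    intro l
    exact_mod_cast card_le_card (filter_subset _ _)
  have hup : ∑ l ∈ L1, ((Bi l).card : ℝ) ≤ G.card * A.card + Q.card * (κ / 2 * A.card) := by
    rw [← sum_filter_add_sum_filter_not L1 (fun l => κ / 2 * (A.card : ℝ) ≤ ((Bi l).card : ℝ))]
    apply add_le_add
    · calc ∑ l ∈ G, ((Bi l).card : ℝ) ≤ ∑ l ∈ G, (A.card : ℝ) := sum_le_sum fun l _ => hBile l
        _ = G.card * A.card := by rw [sum_const, nsmul_eq_mul]
    · calc ∑ l ∈ L1.filter (fun l => ¬ κ / 2 * (A.card : ℝ) ≤ ((Bi l).card : ℝ)), ((Bi l).card : ℝ)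
          ≤ ∑ l ∈ L1.filter (fun l => ¬ κ / 2 * (A.card : ℝ) ≤ ((Bi l).card : ℝ)),
            (κ / 2 * (A.card : ℝ)) := by
            apply sum_le_sum
            intro l hl
            rw [mem_filter] at hl
            push Not at hl
            exact hl.2.le
        _ = ((L1.filter (fun l => ¬ κ / 2 * (A.card : ℝ) ≤ ((Bi l).card : ℝ))).card : ℝ) *
            (κ / 2 * A.card) := by rw [sum_const, nsmul_eq_mul]
        _ ≤ Q.card * (κ / 2 * A.card) := by
            apply mul_le_mul_of_nonneg_right
            · rw [hQc]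
              exact_mod_cast card_le_card (filter_subset _ _)
            · positivity
  have hGc : κ / 4 * m ≤ (G.card : ℝ) := by
    have h1 : κ / 2 * Q.card * A.card ≤ G.card * A.card := by nlinarith
    have h2 : κ / 2 * Q.card ≤ G.card := le_of_mul_le_mul_right h1 hApos
    have h3 := mul_le_mul_of_nonneg_left hQm (by positivity : (0 : ℝ) ≤ κ / 2)
    linarith
  -- the good pairs
  have hGd : ((Gd c U e y b A (range m)).card : ℝ) =
      ∑ l ∈ range m, ((A.filter fun x => c x (y l) = e ∧ b l ∈ star c U x).card : ℝ) := by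
    have h1 : (Gd c U e y b A (range m)).card =
        ∑ l ∈ range m, (A.filter fun x => c x (y l) = e ∧ b l ∈ star c U x).card := by
      unfold Gd
      rw [card_filter, sum_product_right]
      refine sum_congr rfl fun l _ => ?_
      rw [card_filter]
    exact_mod_cast h1
  rw [hGd]
  have hGsub : G ⊆ range m := (filter_subset _ _).trans (filter_subset _ _)
  have hfin : ∑ l ∈ G, (q * (κ / 2 * A.card)) ≤
      ∑ l ∈ range m, ((A.filter fun x => c x (y l) = e ∧ b l ∈ star c U x).card : ℝ) := by
    calc ∑ l ∈ G, (q * (κ / 2 * A.card))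
        ≤ ∑ l ∈ G, ((A.filter fun x => c x (y l) = e ∧ b l ∈ star c U x).card : ℝ) := by
          apply sum_le_sum
          intro l hl
          rw [hG, mem_filter, hL1, mem_filter, mem_range] at hl
          exact hg l hl.1.1 hl.1.2 hl.2
      _ ≤ _ := sum_le_sum_of_subset_of_nonneg hGsub (fun _ _ _ => Nat.cast_nonneg _)
  rw [sum_const, nsmul_eq_mul] at hfin
  have h8 : κ / 4 * m * (q * (κ / 2 * A.card)) ≤ G.card * (q * (κ / 2 * A.card)) :=
    mul_le_mul_of_nonneg_right hGc (by positivity)
  calc κ ^ 2 * q / 8 * (A.card * m) = κ / 4 * m * (q * (κ / 2 * A.card)) := by ring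
    _ ≤ _ := h8.trans hfin

end Pool.Agent.EGF.H40
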