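import Pool.Agent.EGF.StmtsR
import Pool.Agent.Helper80_EGF.SG1

/-!
# EGF row RAA: typical vertices of `A` (helper40)
-/

set_option autoImplicit false

open Finset

namespace Pool.Agent.EGF.H40

open Pool.Agent.EGF.H80 (exists_col exists_fiber)

section Count

variable {V W : Type}

theorem cntL (X : Finset V) (Y : Finset W) (r : V → W → Prop) [∀ x y, Decidable (r x y)] :
    ((X ×ˢ Y).filter fun p => r p.1 p.2).card = ∑ x ∈ X, (Y.filter fun y => r x y).card := by
  rw [Finset.card_filter, Finset.sum_product]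
  refine Finset.sum_congr rfl fun x _ => ?_
  rw [Finset.card_filter]

theorem cntR (X : Finset V) (Y : Finset W) (r : V → W → Prop) [∀ x y, Decidable (r x y)] :
    ((X ×ˢ Y).filter fun p => r p.1 p.2).card = ∑ y ∈ Y, (X.filter fun x => r x y).card := by
  rw [Finset.card_filter, Finset.sum_product_right]
  refine Finset.sum_congr rfl fun x _ => ?_
  rw [Finset.card_filter]

/-- the smallest elements -/
theorem lower (L : Finset ℕ) (n : ℕ) (hn : n ≤ L.card) :
    ∃ Lo ⊆ L, Lo.card = n ∧ ∀ l ∈ Lo, ∀ i ∈ L \ Lo, l < i := by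
  classical
  induction n with
  | zero => exact ⟨∅, Finset.empty_subset _, rfl, fun l hl => absurd hl (Finset.notMem_empty l)⟩
  | succ n ih =>
    obtain ⟨Lo, hLo, hc, hlt⟩ := ih (by omega)
    have hne : (L \ Lo).Nonempty := by
      rw [← Finset.card_pos]
      have h1 := Finset.card_le_card_sdiff_add_card (s := L) (t := Lo)
      omega
    have hm := Finset.min'_mem _ hne
    set m := (L \ Lo).min' hne with hmdef
    obtain ⟨hm1, hm2⟩ := Finset.mem_sdiff.mp hm
    refine ⟨insert m Lo, ?_, ?_, ?_⟩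
    · intro x hx
      rcases Finset.mem_insert.mp hx with h | h
      · rw [h]; exact hm1
      · exact hLo h
    · rw [Finset.card_insert_of_notMem hm2, hc]
    · intro l hl i hi
      obtain ⟨hi1, hi2⟩ := Finset.mem_sdiff.mp hi
      have hi3 : i ∈ L \ Lo :=
        Finset.mem_sdiff.mpr ⟨hi1, fun h => hi2 (Finset.mem_insert_of_mem h)⟩
      rcases Finset.mem_insert.mp hl with h | h
      · rw [h]
        refine lt_of_le_of_ne (Finset.min'_le _ i hi3) ?_
        intro h2
        exact hi2 (by rw [← h2]; exact Finset.mem_insert_self _ _)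
      · exact hlt l h i hi3

end Count

section Regular

variable {V : Type} [DecidableEq V] {k : ℕ} {c : V → V → Fin k} {U A : Finset V} {L : Finset ℕ}
  {C : Finset (Fin k)} {e : Fin k} {y : ℕ → V} {b : ℕ → Fin k} {ρ ω lam : ℝ}

theorem few_good (hR : Rg7 c U C e y b A L ρ ω lam) (hA : 0 < ρ * A.card) {L' : Finset ℕ}
    (hL : L' ⊆ L) (hL' : ρ * L.card ≤ (L'.card : ℝ)) :
    ((A.filter fun x => ((L'.filter fun l => c x (y l) = e ∧ b l ∈ star c U x).card : ℝ) <
      ω * L'.card).card : ℝ) < ρ * A.card := by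
  by_contra hcon
  rw [not_lt] at hcon
  set A' := A.filter fun x => ((L'.filter fun l => c x (y l) = e ∧ b l ∈ star c U x).card : ℝ) <
      ω * L'.card with hA'
  have h1 := (hR A' (Finset.filter_subset _ _) L' hL hcon hL').1
  unfold Gd at h1
  rw [cntL A' L' (fun x l => c x (y l) = e ∧ b l ∈ star c U x)] at h1
  have hne : A'.Nonempty := by
    rw [← Finset.card_pos]
    have : (0 : ℝ) < A'.card := lt_of_lt_of_le hA hcon
    exact_mod_cast this
  have h2 : ∑ x ∈ A', ((L'.filter fun l => c x (y l) = e ∧ b l ∈ star c U x).card : ℝ) <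
      ∑ _x ∈ A', ω * L'.card :=
    Finset.sum_lt_sum_of_nonempty hne fun x hx => (Finset.mem_filter.mp hx).2
  rw [Finset.sum_const, nsmul_eq_mul] at h2
  push_cast at h1
  linarith [h1, h2, (by ring : ω * ((A'.card : ℝ) * L'.card) = (A'.card : ℝ) * (ω * L'.card))]

theorem few_bad (hR : Rg7 c U C e y b A L ρ ω lam) (hA : 0 < ρ * A.card) {L' : Finset ℕ}
    (hL : L' ⊆ L) (hL' : ρ * L.card ≤ (L'.card : ℝ)) :
    ((A.filter fun x => lam * L'.card <
      ((L'.filter fun l => c x (y l) ∉ C).card : ℝ)).card : ℝ) < ρ * A.card := by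
  by_contra hcon
  rw [not_lt] at hcon
  set A' := A.filter fun x => lam * L'.card <
      ((L'.filter fun l => c x (y l) ∉ C).card : ℝ) with hA'
  have h1 := (hR A' (Finset.filter_subset _ _) L' hL hcon hL').2
  unfold Bp at h1
  rw [cntL A' L' (fun x l => c x (y l) ∉ C)] at h1
  have hne : A'.Nonempty := by
    rw [← Finset.card_pos]
    have : (0 : ℝ) < A'.card := lt_of_lt_of_le hA hcon
    exact_mod_cast this
  have h2 : ∑ _x ∈ A', lam * L'.card <
      ∑ x ∈ A', ((L'.filter fun l => c x (y l) ∉ C).card : ℝ) :=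
    Finset.sum_lt_sum_of_nonempty hne fun x hx => (Finset.mem_filter.mp hx).2
  rw [Finset.sum_const, nsmul_eq_mul] at h2
  push_cast at h1
  linarith [h1, h2, (by ring : lam * ((A'.card : ℝ) * L'.card) = (A'.card : ℝ) * (lam * L'.card))]

end Regular

/-- **RAA** -/
theorem raa (hmaj : MajStmt) : RaaStmt := by
  intro V _ k c U A L C e y b s Lc ρ ω lam hsym hL hs hflat hAU hA8 hL2 hω hρ hρ1 hρs hreg
  classical
  have hs1 : (33 : ℝ) ≤ s := by linarith
  have hs0 : (0 : ℝ) < s := by linarith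
  set t : ℝ := 1 / (s : ℝ) ^ 2 with ht
  have ht0 : 0 < t := by positivity
  have hAp : (0 : ℝ) < A.card := by exact_mod_cast (by omega : 0 < A.card)
  have hρA : 0 < ρ * A.card := mul_pos hρ hAp
  have hfA : Flat c A s (Lc * s) := fun S hS h => hflat S (hS.trans hAU) h
  have hmA := hmaj V k c A s Lc hsym hfA hL hs hA8
  rw [← ht] at hmA
  have hA0A : maj c A t ⊆ A := Finset.filter_subset _ _
  obtain ⟨a, ha⟩ := exists_col (c := c) e A t
  set A0 := maj c A t with hA0
  -- the halves of `L`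
  obtain ⟨Lo, hLo, hLoc, hlt⟩ := lower L (L.card / 2) (Nat.div_le_self _ _)
  have hUpc : (L \ Lo).card + Lo.card = L.card := by
    rw [Finset.card_sdiff_of_subset hLo]
    have := Finset.card_le_card hLo
    omega
  have hL1 : L.card ≤ 3 * Lo.card := by omega
  have hL3 : L.card ≤ 3 * (L \ Lo).card := by omega
  have hbig : ∀ L' : Finset ℕ, L.card ≤ 3 * L'.card → ρ * L.card ≤ (L'.card : ℝ) := by
    intro L' h
    have h1 : (L.card : ℝ) ≤ 3 * L'.card := by exact_mod_cast h
    have h2 : ρ * (L.card : ℝ) ≤ ρ * (3 * L'.card) := mul_le_mul_of_nonneg_left h1 hρ.le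
    have h3 : (0 : ℝ) ≤ L'.card := Nat.cast_nonneg _
    nlinarith
  set M1 := A.filter fun x => ((Lo.filter fun l => c x (y l) = e ∧ b l ∈ star c U x).card : ℝ) <
      ω * Lo.card with hM1
  set M2 := A.filter fun x => (((L \ Lo).filter fun l =>
      c x (y l) = e ∧ b l ∈ star c U x).card : ℝ) < ω * (L \ Lo).card with hM2
  set M3 := A.filter fun x => lam * Lo.card <
      ((Lo.filter fun l => c x (y l) ∉ C).card : ℝ) with hM3
  have hM1c : (M1.card : ℝ) < ρ * A.card := few_good hreg hρA hLo (hbig Lo hL1)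
  have hM2c : (M2.card : ℝ) < ρ * A.card :=
    few_good hreg hρA Finset.sdiff_subset (hbig (L \ Lo) hL3)
  have hM3c : (M3.card : ℝ) < ρ * A.card := few_bad hreg hρA hLo (hbig Lo hL1)
  set A1 := ((A0 \ M1) \ M2) \ M3 with hA1
  have hA1A0 : A1 ⊆ A0 :=
    (Finset.sdiff_subset).trans ((Finset.sdiff_subset).trans Finset.sdiff_subset)
  have hA1c : (A.card : ℝ) ≤ 8 * A1.card := by
    have h1 : A0.card ≤ (A0 \ M1).card + M1.card := Finset.card_le_card_sdiff_add_card
    have h2 : (A0 \ M1).card ≤ ((A0 \ M1) \ M2).card + M2.card :=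
      Finset.card_le_card_sdiff_add_card
    have h3 : ((A0 \ M1) \ M2).card ≤ A1.card + M3.card := Finset.card_le_card_sdiff_add_card
    have h4 : (A0.card : ℝ) ≤ A1.card + M3.card + M2.card + M1.card := by
      exact_mod_cast (by omega : A0.card ≤ A1.card + M3.card + M2.card + M1.card)
    have h6 : 24 * (ρ * (A.card : ℝ)) ≤ A.card := by nlinarith
    linarith
  have hA1p : (0 : ℝ) < A1.card := by linarith
  have hA1m : ∀ x ∈ A1, x ∈ A0 ∧ x ∈ A ∧ x ∉ M1 ∧ x ∉ M2 ∧ x ∉ M3 := by
    intro x hx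
    obtain ⟨h1, h4⟩ := Finset.mem_sdiff.mp hx
    obtain ⟨h1, h3⟩ := Finset.mem_sdiff.mp h1
    obtain ⟨h1, h2⟩ := Finset.mem_sdiff.mp h1
    exact ⟨h1, hA0A h1, h2, h3, h4⟩
  obtain ⟨a0, ha0⟩ := exists_fiber e A1 a
  set X0 := A1.filter fun x => a x = a0 with hX0
  have hkp : (0 : ℝ) < k := by
    have : 0 < k := Fin.pos e
    exact_mod_cast this
  have hX0p : (0 : ℝ) < X0.card := lt_of_lt_of_le (div_pos hA1p hkp) ha0
  have hX0ne : X0.Nonempty := by
    rw [← Finset.card_pos]
    exact_mod_cast hX0p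
  have hX0m : ∀ x ∈ X0, x ∈ A1 ∧ a x = a0 := fun x hx => Finset.mem_filter.mp hx
  refine ⟨Lo, hLo, L \ Lo, Finset.sdiff_subset, X0, fun x hx => (hA1m x (hX0m x hx).1).2.1, a0,
    hlt, hL1, hL3, hX0ne, ?_, ?_, ?_, ?_, ?_, ?_⟩
  · -- the logarithm
    have h1 : Real.log (A1.card / k) ≤ Real.log X0.card :=
      Real.log_le_log (div_pos hA1p hkp) ha0
    rw [Real.log_div hA1p.ne' hkp.ne'] at h1
    have h2 : Real.log (A.card / 8) ≤ Real.log A1.card :=
      Real.log_le_log (div_pos hAp (by norm_num)) (by linarith)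
    rw [Real.log_div hAp.ne' (by norm_num)] at h2
    have h3 : Real.log 8 < 3 := by
      have h4 : (8 : ℝ) = 2 ^ 3 := by norm_num
      rw [h4, Real.log_pow]
      have h5 := Real.log_two_lt_d9
      push_cast
      linarith
    linarith
  · intro x hx
    obtain ⟨h1, h2⟩ := hX0m x hx
    rw [← h2]
    exact ha x (hA1A0 h1)
  · intro x hx
    obtain ⟨-, h2, h3, -, -⟩ := hA1m x (hX0m x hx).1
    by_contra h5
    rw [not_le] at h5
    exact h3 (Finset.mem_filter.mpr ⟨h2, h5⟩)
  · intro x hx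
    obtain ⟨-, h2, -, h3, -⟩ := hA1m x (hX0m x hx).1
    have h6 : ω * (L \ Lo).card ≤
        (((L \ Lo).filter fun l => c x (y l) = e ∧ b l ∈ star c U x).card : ℝ) := by
      by_contra h5
      rw [not_le] at h5
      exact h3 (Finset.mem_filter.mpr ⟨h2, h5⟩)
    refine h6.trans ?_
    have h7 : ((L \ Lo).filter fun l => c x (y l) = e ∧ b l ∈ star c U x) ⊆
        ((L \ Lo).filter fun i => c x (y i) = e) := by
      intro l hl
      obtain ⟨hl1, hl2⟩ := Finset.mem_filter.mp hl
      exact Finset.mem_filter.mpr ⟨hl1, hl2.1⟩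
    exact_mod_cast Finset.card_le_card h7
  · intro x hx
    obtain ⟨-, h2, -, -, h4⟩ := hA1m x (hX0m x hx).1
    by_contra h5
    rw [not_le] at h5
    exact h4 (Finset.mem_filter.mpr ⟨h2, h5⟩)
  · intro x hx
    obtain ⟨h1, h2⟩ := hX0m x hx
    have hax := ha x (hA1A0 h1)
    rw [h2] at hax
    by_contra hcon
    rw [not_le] at hcon
    set L' := Lo.filter fun l => ¬ (ω * t * A.card ≤
      ((nb c A a0 x ∩ al c e A (y l)).card : ℝ)) with hL'
    have hL'p : (0 : ℝ) < L'.card := by
      have h3 : (0 : ℝ) ≤ 3 * ρ * Lo.card :=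
        mul_nonneg (mul_nonneg (by norm_num) hρ.le) (Nat.cast_nonneg _)
      linarith
    have hL'ne : L'.Nonempty := by
      rw [← Finset.card_pos]
      exact_mod_cast hL'p
    have hL'L : L' ⊆ L := (Finset.filter_subset _ _).trans hLo
    have h5 : ρ * L.card ≤ (L'.card : ℝ) := by
      have h6 : (L.card : ℝ) ≤ 3 * Lo.card := by exact_mod_cast hL1
      have h7 : ρ * (L.card : ℝ) ≤ ρ * (3 * Lo.card) := mul_le_mul_of_nonneg_left h6 hρ.le
      linarith
    have hDA : nb c A a0 x ⊆ A := Finset.filter_subset _ _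
    have h8 := (hreg (nb c A a0 x) hDA L' hL'L
      (le_trans (mul_le_mul_of_nonneg_right hρs hAp.le) hax) h5).1
    unfold Gd at h8
    rw [cntR (nb c A a0 x) L' (fun x l => c x (y l) = e ∧ b l ∈ star c U x)] at h8
    have h9 : ∑ l ∈ L', (((nb c A a0 x).filter fun z =>
        c z (y l) = e ∧ b l ∈ star c U z).card : ℝ) < ∑ _l ∈ L', ω * t * A.card := by
      refine Finset.sum_lt_sum_of_nonempty hL'ne fun l hl => ?_
      obtain ⟨-, h10⟩ := Finset.mem_filter.mp hl
      rw [not_le] at h10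
      refine lt_of_le_of_lt ?_ h10
      have h11 : ((nb c A a0 x).filter fun z => c z (y l) = e ∧ b l ∈ star c U z) ⊆
          nb c A a0 x ∩ al c e A (y l) := by
        intro z hz
        obtain ⟨hz1, hz2, -⟩ := Finset.mem_filter.mp hz
        refine Finset.mem_inter.mpr ⟨hz1, ?_⟩
        exact Finset.mem_filter.mpr ⟨hDA hz1, (hsym (y l) z).trans hz2⟩
      exact_mod_cast Finset.card_le_card h11
    rw [Finset.sum_const, nsmul_eq_mul] at h9
    push_cast at h8
    have h12 : (L'.card : ℝ) * (ω * t * A.card) ≤ (L'.card : ℝ) * (ω * (nb c A a0 x).card) := by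
      refine mul_le_mul_of_nonneg_left ?_ hL'p.le
      rw [mul_assoc]
      exact mul_le_mul_of_nonneg_left hax hω.le
    linarith [(by ring : ω * (((nb c A a0 x).card : ℝ) * L'.card) =
      (L'.card : ℝ) * (ω * (nb c A a0 x).card))]

end Pool.Agent.EGF.H40
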